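import Mathlib

/-!
# Support points and localisation of non-dentability (MP_2e175a_an)
-/

open Filter Topology

namespace Pool.Agent.MP2e175a

universe u

variable {X : Type u} [NormedAddCommGroup X] [NormedSpace ℝ X]

/-- A maximal point for the Bishop-Phelps order. -/
lemma ekeland [CompleteSpace X] {C : Set X} (hC : IsClosed C) (f : X →L[ℝ] ℝ) {M : ℝ}
    (hM : ∀ c ∈ C, f c ≤ M) {l : ℝ} (hl : 0 < l) {x0 : X} (hx0 : x0 ∈ C) :
    ∃ x1 ∈ C, l * ‖x1 - x0‖ ≤ f x1 - f x0 ∧
      ∀ c ∈ C, l * ‖c - x1‖ ≤ f c - f x1 → c = x1 := by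
  classical
  set S : X → Set X := fun x => {c | c ∈ C ∧ l * ‖c - x‖ ≤ f c - f x} with hS
  have htrans : ∀ x y z, y ∈ S x → z ∈ S y → z ∈ S x := by
    rintro x y z ⟨hy1, hy2⟩ ⟨hz1, hz2⟩
    refine ⟨hz1, ?_⟩
    have h1 : ‖z - x‖ ≤ ‖z - y‖ + ‖y - x‖ := norm_sub_le_norm_sub_add_norm_sub z y x
    have h2 : l * ‖z - x‖ ≤ l * (‖z - y‖ + ‖y - x‖) := mul_le_mul_of_nonneg_left h1 hl.le
    linarith
  have hrefl : ∀ x ∈ C, x ∈ S x := fun x hx => ⟨hx, by simp⟩
  have hstep : ∀ (n : ℕ) (x : X), x ∈ C → ∃ y ∈ S x, ∀ c ∈ S x, f c ≤ f y + (1 / 2) ^ n := by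
    intro n x hx
    have hne : (f '' S x).Nonempty := ⟨f x, x, hrefl x hx, rfl⟩
    have hbd : BddAbove (f '' S x) := ⟨M, by rintro _ ⟨c, hc, rfl⟩; exact hM c hc.1⟩
    obtain ⟨_, ⟨y, hy, rfl⟩, hy'⟩ := exists_lt_of_lt_csSup hne
      (sub_lt_self (sSup (f '' S x)) (by positivity : (0 : ℝ) < (1 / 2) ^ n))
    refine ⟨y, hy, fun c hc => ?_⟩
    have := le_csSup hbd ⟨c, hc, rfl⟩
    linarith
  choose! nx hnx1 hnx2 using hstep
  set x : ℕ → X := fun n => Nat.rec x0 (fun n y => nx n y) n with hx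
  have hx0' : x 0 = x0 := rfl
  have hxs : ∀ n, x (n + 1) = nx n (x n) := fun n => rfl
  have hxC : ∀ n, x n ∈ C := by
    intro n
    induction n with
    | zero => exact hx0
    | succ n ih => rw [hxs]; exact (hnx1 n (x n) ih).1
  have hxS : ∀ n, x (n + 1) ∈ S (x n) := fun n => by rw [hxs]; exact hnx1 n (x n) (hxC n)
  have hxS' : ∀ n d, x (n + d) ∈ S (x n) := by
    intro n d
    induction d with
    | zero => exact hrefl _ (hxC n)
    | succ d ih => exact htrans _ _ _ ih (hxS (n + d))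
  have hmono : Monotone (fun n => f (x n)) := by
    apply monotone_nat_of_le_succ
    intro n
    have := (hxS n).2
    have h2 : 0 ≤ l * ‖x (n + 1) - x n‖ := by positivity
    linarith
  have hbdd : BddAbove (Set.range (fun n => f (x n))) := ⟨M, by
    rintro _ ⟨n, rfl⟩; exact hM _ (hxC n)⟩
  have hconv := tendsto_atTop_ciSup hmono hbdd
  have hcau : CauchySeq x := by
    rw [Metric.cauchySeq_iff']
    intro ε hε
    have hc := hconv.cauchySeq
    rw [Metric.cauchySeq_iff'] at hc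
    obtain ⟨N, hN⟩ := hc (l * ε) (by positivity)
    refine ⟨N, fun n hn => ?_⟩
    obtain ⟨d, rfl⟩ := Nat.exists_eq_add_of_le hn
    have h1 := (hxS' N d).2
    have h2 := hN (N + d) hn
    rw [Real.dist_eq] at h2
    have h3 := le_abs_self (f (x (N + d)) - f (x N))
    rw [dist_eq_norm]
    have h4 : l * ‖x (N + d) - x N‖ < l * ε := by linarith
    exact lt_of_mul_lt_mul_left h4 hl.le
  obtain ⟨x1, hx1⟩ := cauchySeq_tendsto_of_complete hcau
  have hx1C : x1 ∈ C := hC.mem_of_tendsto hx1 (Eventually.of_forall hxC)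
  have hfx1 : Tendsto (fun n => f (x n)) atTop (𝓝 (f x1)) := (f.continuous.tendsto x1).comp hx1
  have hx1S : ∀ n, x1 ∈ S (x n) := by
    intro n
    refine ⟨hx1C, ?_⟩
    have h1 : Tendsto (fun m => l * ‖x m - x n‖) atTop (𝓝 (l * ‖x1 - x n‖)) :=
      ((hx1.sub_const (x n)).norm).const_mul l
    have h2 : Tendsto (fun m => f (x m) - f (x n)) atTop (𝓝 (f x1 - f (x n))) :=
      hfx1.sub_const _
    refine le_of_tendsto_of_tendsto h1 h2 ?_
    filter_upwards [eventually_ge_atTop n] with m hm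
    obtain ⟨d, rfl⟩ := Nat.exists_eq_add_of_le hm
    exact (hxS' n d).2
  refine ⟨x1, hx1C, (hx1S 0).2, ?_⟩
  intro c hc hcl
  have hcS : ∀ n, c ∈ S (x n) := fun n => htrans _ _ _ (hx1S n) ⟨hc, hcl⟩
  have h1 : ∀ n, f c ≤ f x1 + (1 / 2) ^ n := by
    intro n
    have h2 := hnx2 n (x n) (hxC n) c (hcS n)
    rw [← hxs] at h2
    have h3 := (hx1S (n + 1)).2
    have h4 : 0 ≤ l * ‖x1 - x (n + 1)‖ := by positivity
    linarith
  have h2 : f c ≤ f x1 := by
    have h3 : Tendsto (fun n : ℕ => f x1 + (1 / 2 : ℝ) ^ n) atTop (𝓝 (f x1 + 0)) :=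
      (tendsto_pow_atTop_nhds_zero_of_lt_one (by norm_num) (by norm_num)).const_add _
    rw [add_zero] at h3
    exact ge_of_tendsto' h3 h1
  have h3 : l * ‖c - x1‖ ≤ 0 := by linarith
  have h4 : ‖c - x1‖ ≤ 0 := by
    by_contra h
    push Not at h
    have : 0 < l * ‖c - x1‖ := by positivity
    linarith
  exact sub_eq_zero.mp (norm_le_zero_iff.mp h4)

/-- The Bishop-Phelps-Bollobas (Brondsted-Rockafellar) theorem for support functionals. -/
lemma bpb [CompleteSpace X] {C : Set X} (hC : IsClosed C) (hCc : Convex ℝ C) (f : X →L[ℝ] ℝ)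
    {a : ℝ} {l : ℝ} (hl : 0 < l) {x0 : X} (hx0 : x0 ∈ C)
    (hx0a : ∀ c ∈ C, f c ≤ f x0 + a) :
    ∃ x1 ∈ C, ∃ g : X →L[ℝ] ℝ, (∀ c ∈ C, g c ≤ g x1) ∧ l * ‖x1 - x0‖ ≤ a ∧ ‖g - f‖ ≤ l := by
  obtain ⟨x1, hx1C, hx1, hmax⟩ := ekeland hC f hx0a hl hx0
  have hle : ∀ c ∈ C, f c - f x1 ≤ l * ‖c - x1‖ := by
    intro c hc
    by_contra h
    push Not at h
    have := hmax c hc h.le
    subst this
    simp at h
  -- separate the open epigraph from the hypograph
  set A : Set (X × ℝ) := {p | l * ‖p.1 - x1‖ < p.2} with hA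
  set B : Set (X × ℝ) := {p | p.1 ∈ C ∧ p.2 ≤ f p.1 - f x1} with hB
  have hAo : IsOpen A := by
    apply isOpen_lt
    · fun_prop
    · fun_prop
  have hAc : Convex ℝ A := by
    intro p hp q hq s t hs ht hst
    simp only [hA, Set.mem_ofPred_eq] at hp hq ⊢
    have e1 : (s • p + t • q).1 - x1 = s • (p.1 - x1) + t • (q.1 - x1) := by
      simp only [Prod.fst_add, Prod.smul_fst, smul_sub]
      have : x1 = s • x1 + t • x1 := by rw [← add_smul, hst, one_smul]
      nth_rewrite 1 [this]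
      abel
    rw [e1]
    have e2 : ‖s • (p.1 - x1) + t • (q.1 - x1)‖ ≤ s * ‖p.1 - x1‖ + t * ‖q.1 - x1‖ := by
      refine (norm_add_le _ _).trans ?_
      rw [norm_smul, norm_smul, Real.norm_of_nonneg hs, Real.norm_of_nonneg ht]
    have e3 : l * ‖s • (p.1 - x1) + t • (q.1 - x1)‖ ≤
        s * (l * ‖p.1 - x1‖) + t * (l * ‖q.1 - x1‖) := by
      calc _ ≤ l * (s * ‖p.1 - x1‖ + t * ‖q.1 - x1‖) := mul_le_mul_of_nonneg_left e2 hl.le
        _ = _ := by ring
    have e4 : s * (l * ‖p.1 - x1‖) + t * (l * ‖q.1 - x1‖) < s * p.2 + t * q.2 := by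
      rcases hs.eq_or_lt with h0 | h0
      · have ht1 : t = 1 := by linarith
        rw [← h0, ht1]
        linarith
      · have h5 : s * (l * ‖p.1 - x1‖) < s * p.2 := mul_lt_mul_of_pos_left hp h0
        have h6 : t * (l * ‖q.1 - x1‖) ≤ t * q.2 := mul_le_mul_of_nonneg_left hq.le ht
        linarith
    have e5 : (s • p + t • q).2 = s * p.2 + t * q.2 := by simp
    rw [e5]
    linarith
  have hBc : Convex ℝ B := by
    intro p hp q hq s t hs ht hst
    simp only [hB, Set.mem_ofPred_eq] at hp hq ⊢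
    refine ⟨?_, ?_⟩
    · have : (s • p + t • q).1 = s • p.1 + t • q.1 := by simp
      rw [this]
      exact hCc hp.1 hq.1 hs ht hst
    · have e5 : (s • p + t • q).2 = s * p.2 + t * q.2 := by simp
      have e6 : f (s • p + t • q).1 = s * f p.1 + t * f q.1 := by simp
      rw [e5, e6]
      have h5 : s * p.2 ≤ s * (f p.1 - f x1) := mul_le_mul_of_nonneg_left hp.2 hs
      have h6 : t * q.2 ≤ t * (f q.1 - f x1) := mul_le_mul_of_nonneg_left hq.2 ht
      have h7 : s * f x1 + t * f x1 = f x1 := by rw [← add_mul, hst, one_mul]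
      linarith
  have hdisj : Disjoint A B := by
    rw [Set.disjoint_left]
    intro p hp hq
    simp only [hA, hB, Set.mem_ofPred_eq] at hp hq
    have := hle p.1 hq.1
    linarith [hq.2]
  obtain ⟨F, u, hF1, hF2⟩ := geometric_hahn_banach_open hAc hAo hBc hdisj
  set φ : X →L[ℝ] ℝ := F.comp (ContinuousLinearMap.inl ℝ X ℝ) with hφ
  set κ : ℝ := F (0, 1) with hκ
  have hFe : ∀ p : X × ℝ, F p = φ p.1 + κ * p.2 := by
    intro p
    have : p = ContinuousLinearMap.inl ℝ X ℝ p.1 + p.2 • ((0 : X), (1 : ℝ)) := by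
      ext <;> simp
    conv_lhs => rw [this]
    rw [map_add, map_smul, smul_eq_mul, hφ, hκ]
    simp [mul_comm]
  have h1 : ∀ (x : X) (s : ℝ), l * ‖x - x1‖ < s → φ x + κ * s < u := by
    intro x s hs
    have := hF1 (x, s) hs
    rwa [hFe] at this
  have h2 : ∀ c ∈ C, u ≤ φ c + κ * (f c - f x1) := by
    intro c hc
    have := hF2 (c, f c - f x1) ⟨hc, le_rfl⟩
    rwa [hFe] at this
  have hκ0 : κ < 0 := by
    have h3 := h2 x1 hx1C
    rw [sub_self, mul_zero, add_zero] at h3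
    have h4 := h1 x1 1 (by simp)
    linarith
  obtain ⟨k, hk⟩ : ∃ k : ℝ, κ = -k := ⟨-κ, by ring⟩
  have hk0 : 0 < k := by linarith
  rw [hk] at h1 h2
  -- φ x - φ x1 ≤ k l ‖x - x1‖
  have h5 : ∀ x, φ x - φ x1 ≤ k * (l * ‖x - x1‖) := by
    intro x
    have h3 := h2 x1 hx1C
    rw [sub_self, mul_zero, add_zero] at h3
    have h4 : ∀ ε : ℝ, 0 < ε → φ x - φ x1 ≤ k * (l * ‖x - x1‖) + k * ε := by
      intro ε hε
      have := h1 x (l * ‖x - x1‖ + ε) (by linarith)
      linarith
    refine le_of_forall_pos_le_add (fun ε hε => ?_)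
    have := h4 (ε / k) (div_pos hε hk0)
    have e : k * (ε / k) = ε := by field_simp
    rwa [e] at this
  have h6 : ∀ c ∈ C, k * (f c - f x1) ≤ φ c - φ x1 := by
    intro c hc
    have h3 := h2 c hc
    have h4 : φ x1 ≤ u := by
      refine le_of_forall_pos_le_add (fun ε hε => ?_)
      have := h1 x1 (ε / k) (by simp; exact div_pos hε hk0)
      have e : -k * (ε / k) = -ε := by field_simp
      rw [e] at this
      linarith
    linarith
  -- normalise
  set ψ : X →L[ℝ] ℝ := k⁻¹ • φ with hψ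
  have hκ' : 0 < k⁻¹ := inv_pos.mpr hk0
  have h7 : ∀ x, ψ x ≤ l * ‖x‖ := by
    intro x
    have := h5 (x + x1)
    rw [map_add, add_sub_cancel_right, add_sub_cancel_right] at this
    have h8 : ψ x = k⁻¹ * φ x := by simp [hψ]
    rw [h8]
    have h9 := mul_le_mul_of_nonneg_left this hκ'.le
    have e : k⁻¹ * (k * (l * ‖x‖)) = l * ‖x‖ := by field_simp
    rwa [e] at h9
  have h8 : ‖ψ‖ ≤ l := by
    apply ContinuousLinearMap.opNorm_le_bound _ hl.le
    intro x
    rw [Real.norm_eq_abs, abs_le]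
    constructor
    · have := h7 (-x)
      rw [map_neg, norm_neg] at this
      linarith
    · exact h7 x
  refine ⟨x1, hx1C, f - ψ, ?_, ?_, ?_⟩
  · intro c hc
    have h9 := mul_le_mul_of_nonneg_left (h6 c hc) hκ'.le
    have e : k⁻¹ * (k * (f c - f x1)) = f c - f x1 := by field_simp
    have e2 : k⁻¹ * (φ c - φ x1) = ψ c - ψ x1 := by simp [hψ]; ring
    rw [e, e2] at h9
    simp only [sub_apply]
    linarith
  · have := hx0a x1 hx1C
    linarith
  · have : f - ψ - f = -ψ := by abel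
    rw [this, norm_neg]
    exact h8

/-- All slices have diameter at least `δ`. -/
def PD (δ : ℝ) (C : Set X) : Prop :=
  ∀ f : X →L[ℝ] ℝ, ∀ a : ℝ, 0 < a → ∀ η : ℝ, 0 < η → ∃ x ∈ C, ∃ y ∈ C,
    (∀ c ∈ C, f c < f x + a) ∧ (∀ c ∈ C, f c < f y + a) ∧ δ - η < ‖x - y‖

lemma closedHull_le {E : Set X} (f : X →L[ℝ] ℝ) {b : ℝ} (h : ∀ c ∈ E, f c ≤ b) :
    ∀ c ∈ closure (convexHull ℝ E), f c ≤ b := by
  have h1 : convexHull ℝ E ⊆ {c | f c ≤ b} :=
    convexHull_min h (convex_halfSpace_le f.toLinearMap.isLinear b)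
  have h2 : IsClosed {c | f c ≤ b} := isClosed_le f.continuous continuous_const
  exact fun c hc => closure_minimal h1 h2 hc

lemma PD.closedHull {δ : ℝ} {E : Set X} (h : PD δ E) : PD δ (closure (convexHull ℝ E)) := by
  intro f a ha η hη
  obtain ⟨x, hx, y, hy, h1, h2, h3⟩ := h f (a / 2) (by positivity) η hη
  have hsub : E ⊆ closure (convexHull ℝ E) := (subset_convexHull ℝ E).trans subset_closure
  refine ⟨x, hsub hx, y, hsub hy, ?_, ?_, h3⟩
  · intro c hc
    have := closedHull_le f (fun c hc => (h1 c hc).le) c hc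
    linarith
  · intro c hc
    have := closedHull_le f (fun c hc => (h2 c hc).le) c hc
    linarith

/-- The class of sets. -/
structure Good (δ : ℝ) (C : Set X) : Prop where
  ne : C.Nonempty
  bd : Bornology.IsBounded C
  cl : IsClosed C
  cv : Convex ℝ C
  pd : PD δ C

/-- Localisation: every slice contains a good set. -/
lemma Good.localise [CompleteSpace X] {δ : ℝ} {C : Set X} (h : Good δ C) (f : X →L[ℝ] ℝ) {b : ℝ}
    (hb : 0 < b) : ∃ C' ⊆ C, Good δ C' ∧ ∀ x ∈ C', ∀ c ∈ C, f c < f x + b := by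
  obtain ⟨R0, hR0⟩ := h.bd.exists_norm_le
  set R := max R0 1 with hR
  have hRpos : 0 < R := lt_of_lt_of_le one_pos (le_max_right _ _)
  have hRC : ∀ c ∈ C, ‖c‖ ≤ R := fun c hc => (hR0 c hc).trans (le_max_left _ _)
  set r := b / (4 * R) with hr
  have hrpos : 0 < r := by positivity
  have hrR : 2 * (r * R) = b / 2 := by rw [hr]; field_simp; ring
  set E : Set X := {x | x ∈ C ∧ ∃ g : X →L[ℝ] ℝ, ‖g - f‖ < r ∧ ∀ c ∈ C, g c ≤ g x} with hE
  have hEC : E ⊆ C := fun x hx => hx.1
  have hEf : ∀ x ∈ E, ∀ c ∈ C, f c ≤ f x + b / 2 := by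
    rintro x ⟨hx, g, hg, hgm⟩ c hc
    have h1 : |(g - f) c| ≤ r * R := by
      refine ((g - f).le_opNorm c).trans ?_
      exact mul_le_mul hg.le (hRC c hc) (norm_nonneg _) hrpos.le
    have h2 : |(g - f) x| ≤ r * R := by
      refine ((g - f).le_opNorm x).trans ?_
      exact mul_le_mul hg.le (hRC x hx) (norm_nonneg _) hrpos.le
    rw [sub_apply, abs_le] at h1 h2
    have h3 := hgm c hc
    linarith
  -- nonempty
  have hEne : E.Nonempty := by
    obtain ⟨x0, hx0⟩ := h.ne
    have hx0a : ∀ c ∈ C, f c ≤ f x0 + (2 * (‖f‖ * R)) := by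
      intro c hc
      have h1 : |f c| ≤ ‖f‖ * R := (f.le_opNorm c).trans
        (mul_le_mul_of_nonneg_left (hRC c hc) (norm_nonneg _))
      have h2 : |f x0| ≤ ‖f‖ * R := (f.le_opNorm x0).trans
        (mul_le_mul_of_nonneg_left (hRC x0 hx0) (norm_nonneg _))
      rw [abs_le] at h1 h2
      linarith
    obtain ⟨x1, hx1, g, hg1, -, hg3⟩ := bpb h.cl h.cv f (half_pos hrpos) hx0 hx0a
    exact ⟨x1, hx1, g, by linarith, hg1⟩
  have hEpd : PD δ E := by
    intro k a ha η hη
    -- choose x ∈ E nearly maximising k on E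
    obtain ⟨x, hxE, hxk⟩ : ∃ x ∈ E, ∀ c ∈ E, k c < k x + a / 2 := by
      have hne : (k '' E).Nonempty := hEne.image _
      have hbd : BddAbove (k '' E) := by
        refine ⟨‖k‖ * R, ?_⟩
        rintro _ ⟨c, hc, rfl⟩
        have h1 : |k c| ≤ ‖k‖ * R := (k.le_opNorm c).trans
          (mul_le_mul_of_nonneg_left (hRC c (hEC hc)) (norm_nonneg _))
        exact (le_abs_self _).trans h1
      obtain ⟨_, ⟨x, hx, rfl⟩, hx'⟩ := exists_lt_of_lt_csSup hne
        (sub_lt_self (sSup (k '' E)) (by positivity : (0 : ℝ) < a / 2))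
      refine ⟨x, hx, fun c hc => ?_⟩
      have := le_csSup hbd ⟨c, hc, rfl⟩
      linarith
    obtain ⟨hxC, g, hgf, hgm⟩ := hxE
    set s := (r - ‖g - f‖) / 2 with hs
    have hspos : 0 < s := by rw [hs]; linarith
    set t := s / (‖k‖ + 1) with ht
    have htpos : 0 < t := by positivity
    have htk : t * ‖k‖ ≤ s := by
      rw [ht, div_mul_eq_mul_div, div_le_iff₀ (by positivity)]
      nlinarith [norm_nonneg k]
    set g' : X →L[ℝ] ℝ := g + t • k with hg'
    have hg'f : ‖g' - f‖ ≤ ‖g - f‖ + s := by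
      have : g' - f = (g - f) + t • k := by rw [hg']; abel
      rw [this]
      refine (norm_add_le _ _).trans ?_
      rw [norm_smul, Real.norm_of_nonneg htpos.le]
      linarith
    -- choose the small parameter
    set l := min (min (s / 2) (η / 8)) (min (min (a / (8 * (‖k‖ + 1))) (a * t / 8)) 1) with hl
    have hlpos : 0 < l := by
      rw [hl]
      refine lt_min (lt_min (by positivity) (by positivity))
        (lt_min (lt_min (by positivity) (by positivity)) one_pos)
    have hl1 : l ≤ s / 2 := (min_le_left _ _).trans (min_le_left _ _)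
    have hl2 : l ≤ η / 8 := (min_le_left _ _).trans (min_le_right _ _)
    have hl3 : l ≤ a / (8 * (‖k‖ + 1)) :=
      (min_le_right _ _).trans ((min_le_left _ _).trans (min_le_left _ _))
    have hl4 : l ≤ a * t / 8 :=
      (min_le_right _ _).trans ((min_le_left _ _).trans (min_le_right _ _))
    have hl5 : l ≤ 1 := (min_le_right _ _).trans (min_le_right _ _)
    have hll : l * l ≤ a * t / 8 := by nlinarith
    have hkl : ‖k‖ * l ≤ a / 8 := by
      have h1 : ‖k‖ * l ≤ (‖k‖ + 1) * (a / (8 * (‖k‖ + 1))) := by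
        apply mul_le_mul (by linarith) hl3 hlpos.le (by positivity)
      have h2 : (‖k‖ + 1) * (a / (8 * (‖k‖ + 1))) = a / 8 := by
        have : ‖k‖ + 1 ≠ 0 := by positivity
        field_simp
      linarith
    obtain ⟨x', hx', y', hy', hx'm, hy'm, hxy⟩ := h.pd g' (l * l) (by positivity) (η / 2)
      (by positivity)
    have main : ∀ z' ∈ C, (∀ c ∈ C, g' c < g' z' + l * l) →
        ∃ z ∈ E, ‖z - z'‖ ≤ l ∧ ∀ c ∈ E, k c < k z + a := by
      intro z' hz' hz'm
      obtain ⟨z, hz, g'', hg1, hg2, hg3⟩ := bpb h.cl h.cv g' hlpos hz' (fun c hc => (hz'm c hc).le)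
      have hzn : ‖z - z'‖ ≤ l := by
        have : l * ‖z - z'‖ ≤ l * l := hg2
        exact le_of_mul_le_mul_left this hlpos
      refine ⟨z, ⟨hz, g'', ?_, hg1⟩, hzn, ?_⟩
      · have : g'' - f = (g'' - g') + (g' - f) := by abel
        rw [this]
        refine (norm_add_le _ _).trans_lt ?_
        have : ‖g - f‖ + 2 * s = r := by rw [hs]; ring
        linarith
      · intro c hc
        have h1 := hxk c hc
        -- k x < k z' + l*l/t
        have h2 := hz'm x hxC
        have h3 := hgm z' hz'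
        have h4 : g' x = g x + t * k x := by simp [hg']
        have h5 : g' z' = g z' + t * k z' := by simp [hg']
        rw [h4, h5] at h2
        have h6 : t * k x < t * (k z' + a / 8) := by
          have : t * (k z' + a / 8) = t * k z' + a * t / 8 := by ring
          linarith
        have h7 : k x < k z' + a / 8 := lt_of_mul_lt_mul_left h6 htpos.le
        have h8 : |k (z - z')| ≤ ‖k‖ * l := (k.le_opNorm _).trans
          (mul_le_mul_of_nonneg_left hzn (norm_nonneg _))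
        rw [map_sub, abs_le] at h8
        linarith
    obtain ⟨x2, hx2E, hx2n, hx2m⟩ := main x' hx' hx'm
    obtain ⟨y2, hy2E, hy2n, hy2m⟩ := main y' hy' hy'm
    refine ⟨x2, hx2E, y2, hy2E, hx2m, hy2m, ?_⟩
    have h1 : ‖x' - y'‖ ≤ ‖x2 - x'‖ + ‖x2 - y2‖ + ‖y2 - y'‖ := by
      have : x' - y' = -(x2 - x') + (x2 - y2) + (y2 - y') := by abel
      rw [this]
      refine (norm_add_le _ _).trans ?_
      refine add_le_add ((norm_add_le _ _).trans ?_) le_rfl
      rw [norm_neg]
    linarith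
  have hsub : closure (convexHull ℝ E) ⊆ C :=
    closure_minimal (convexHull_min hEC h.cv) h.cl
  refine ⟨closure (convexHull ℝ E), hsub, ⟨?_, h.bd.subset hsub, isClosed_closure,
    (convex_convexHull ℝ E).closure, hEpd.closedHull⟩, ?_⟩
  · exact hEne.mono ((subset_convexHull ℝ E).trans subset_closure)
  · intro x hx c hc
    have h1 : ∀ z ∈ E, (-f) z ≤ -(f c) + b / 2 := by
      intro z hz
      have := hEf z hz c hc
      simp only [neg_apply]
      linarith
    have h2 := closedHull_le (-f) h1 x hx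
    simp only [neg_apply] at h2
    linarith

end Pool.Agent.MP2e175a
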