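import Pool.Agent.Lib.MP_2e175a_an.Renorm

/-!
# Renorming spaces that fail the Radon-Nikodym property (MP_2e175a_an)
-/

open Filter Topology Pointwise

namespace Pool.Agent.MP2e175a

universe u

variable {X : Type u} [NormedAddCommGroup X] [NormedSpace ℝ X] [CompleteSpace X]

theorem main
    (hX : ∃ D : Set X, D.Nonempty ∧ Bornology.IsBounded D ∧ ∃ δ : ℝ, 0 < δ ∧
        ∀ f : X →L[ℝ] ℝ, ∀ α : ℝ, 0 < α →
          ∃ x ∈ D, ∃ y ∈ D, sSup (f '' D) - α < f x ∧ sSup (f '' D) - α < f y ∧
            δ ≤ ‖x - y‖) (ε : ℝ) (hε : 0 < ε) :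
      ∃ N : Seminorm ℝ X,
        (∃ c : ℝ, 0 < c ∧ ∃ C : ℝ, 0 < C ∧ ∀ x : X, c * ‖x‖ ≤ N x ∧ N x ≤ C * ‖x‖) ∧
        ∀ f : X →L[ℝ] ℝ, ∀ α : ℝ, 0 < α →
          ∃ x y : X, N x ≤ 1 ∧ N y ≤ 1 ∧
            sSup (f '' {z : X | N z ≤ 1}) - α < f x ∧
            sSup (f '' {z : X | N z ≤ 1}) - α < f y ∧
            2 - ε < N (x - y) := by
  obtain ⟨D0, hD0ne, hD0bd, δ, hδ, hD0⟩ := hX
  -- bounded above images
  have hbdd : ∀ (E : Set X), Bornology.IsBounded E → ∀ f : X →L[ℝ] ℝ, BddAbove (f '' E) := by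
    intro E hE f
    obtain ⟨R, hR⟩ := hE.exists_norm_le
    refine ⟨‖f‖ * R, ?_⟩
    rintro _ ⟨c, hc, rfl⟩
    have h1 : |f c| ≤ ‖f‖ * R := (f.le_opNorm c).trans
      (mul_le_mul_of_nonneg_left (hR c hc) (norm_nonneg _))
    exact (le_abs_self _).trans h1
  have hPD0 : PD δ D0 := by
    intro f a ha η hη
    obtain ⟨x, hx, y, hy, h1, h2, h3⟩ := hD0 f a ha
    refine ⟨x, hx, y, hy, ?_, ?_, by linarith⟩
    · intro c hc
      have := le_csSup (hbdd D0 hD0bd f) ⟨c, hc, rfl⟩
      linarith
    · intro c hc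
      have := le_csSup (hbdd D0 hD0bd f) ⟨c, hc, rfl⟩
      linarith
  have hGood0 : Good δ (closure (convexHull ℝ D0)) := by
    refine ⟨hD0ne.mono ((subset_convexHull ℝ D0).trans subset_closure), ?_, isClosed_closure,
      (convex_convexHull ℝ D0).closure, hPD0.closedHull⟩
    exact (isBounded_convexHull.mpr hD0bd).closure
  -- the minimal diameter
  set 𝒟 : Set (Set X) := {C | Good δ C} with h𝒟
  have hne : (Metric.diam '' 𝒟).Nonempty := ⟨_, _, hGood0, rfl⟩
  have hbb : BddBelow (Metric.diam '' 𝒟) := ⟨0, by rintro _ ⟨C, _, rfl⟩; exact Metric.diam_nonneg⟩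
  set d0 := sInf (Metric.diam '' 𝒟) with hd0
  have hd0δ : δ ≤ d0 := by
    apply le_csInf hne
    rintro _ ⟨C, hC, rfl⟩
    refine le_of_forall_pos_le_add (fun η hη => ?_)
    obtain ⟨x, hx, y, hy, -, -, h3⟩ := (show Good δ C from hC).pd 0 1 one_pos η hη
    have := Metric.dist_le_diam_of_mem (show Good δ C from hC).bd hx hy
    rw [dist_eq_norm] at this
    linarith
  have hd0pos : 0 < d0 := lt_of_lt_of_le hδ hd0δ
  have hle : ∀ C : Set X, Good δ C → d0 ≤ Metric.diam C := fun C hC => csInf_le hbb ⟨C, hC, rfl⟩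
  have hfar : ∀ C : Set X, Good δ C → ∀ η : ℝ, 0 < η → ∃ x ∈ C, ∃ y ∈ C, d0 - η < ‖x - y‖ := by
    intro C hC η hη
    by_contra hcon
    push Not at hcon
    have h1 : Metric.diam C ≤ d0 - η := by
      apply Metric.diam_le_of_forall_dist_le_of_nonempty hC.ne
      intro x hx y hy
      rw [dist_eq_norm]
      exact hcon x hx y hy
    have := hle C hC
    linarith
  have hPD : ∀ C : Set X, Good δ C → PD d0 C := by
    intro C hC f a ha η hη
    obtain ⟨C', hC'sub, hC', hf⟩ := hC.localise f ha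
    obtain ⟨x, hx, y, hy, hxy⟩ := hfar C' hC' η hη
    exact ⟨x, hC'sub hx, y, hC'sub hy, hf x hx, hf y hy, hxy⟩
  -- a functional
  obtain ⟨x0, hx0, y0, hy0, -, -, hxy0⟩ := hPD0 0 1 one_pos (δ / 2) (by positivity)
  have hne0 : x0 - y0 ≠ 0 := by
    intro h
    rw [h, norm_zero] at hxy0
    linarith
  obtain ⟨g, hg1, hg2⟩ := exists_dual_vector ℝ (x0 - y0) (norm_ne_zero_iff.mpr hne0)
  set e := x0 - y0 with he
  set f0 : X →L[ℝ] ℝ := (‖e‖)⁻¹ • g with hf0
  have hf0e : f0 e = 1 := by
    have h1 : ‖e‖ ≠ 0 := norm_ne_zero_iff.mpr hne0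
    simp only [hf0, smul_apply, smul_eq_mul]
    rw [hg2]
    simp [h1]
  -- parameters
  set ε1 := min ε 1 with hε1
  have hε1pos : 0 < ε1 := lt_min hε one_pos
  have hε1le : ε1 ≤ 1 := min_le_right _ _
  have hε1ε : ε1 ≤ ε := min_le_left _ _
  set ε' := ε1 * d0 / 16 with hε'
  have hε'pos : 0 < ε' := by positivity
  obtain ⟨_, ⟨C, hCgood, rfl⟩, hCdiam⟩ := exists_lt_of_csInf_lt hne
    (show sInf (Metric.diam '' 𝒟) < d0 + ε' by linarith)
  have hCgood' : Good δ C := hCgood
  obtain ⟨RC, hRC⟩ := hCgood'.bd.exists_norm_le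
  set m := sSup (f0 '' C) with hm
  set v := (1 - m) • e with hv
  set R := |RC| + ‖v‖ with hR
  have hR0 : 0 ≤ R := by positivity
  set F := ‖f0‖ with hF
  have hF0 : 0 ≤ F := norm_nonneg _
  set η := min 1 (ε1 * d0 / (32 * ((2 + F) * R + 1))) with hη
  have hηpos : 0 < η := lt_min one_pos (by positivity)
  have hη2 : ((2 + F) * R + 1) * η ≤ ε1 * d0 / 32 := by
    have h1 : η ≤ ε1 * d0 / (32 * ((2 + F) * R + 1)) := min_le_right _ _
    have h2 : 0 < (2 + F) * R + 1 := by positivity
    calc ((2 + F) * R + 1) * η ≤ ((2 + F) * R + 1) * (ε1 * d0 / (32 * ((2 + F) * R + 1))) :=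
          mul_le_mul_of_nonneg_left h1 h2.le
      _ = ε1 * d0 / 32 := by field_simp
  -- localise and translate
  obtain ⟨C', hC'sub, hC', hf⟩ := hCgood'.localise f0 hηpos
  set D : Set X := {x | x - v ∈ C'} with hD
  have hDne : D.Nonempty := by
    obtain ⟨c, hc⟩ := hC'.ne
    exact ⟨c + v, by simpa [hD] using hc⟩
  have hDc : Convex ℝ D := by
    intro x hx y hy a b ha hb hab
    simp only [hD, Set.mem_ofPred_eq] at hx hy ⊢
    have : a • x + b • y - v = a • (x - v) + b • (y - v) := by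
      have h1 : v = a • v + b • v := by rw [← add_smul, hab, one_smul]
      calc a • x + b • y - v = a • x + b • y - (a • v + b • v) := by rw [← h1]
        _ = _ := by simp only [smul_sub]; abel
    rw [this]
    exact hC'.cv hx hy ha hb hab
  have hDR : ∀ x ∈ D, ‖x‖ ≤ R := by
    intro x hx
    have h1 : ‖x - v‖ ≤ RC := hRC _ (hC'sub hx)
    have h2 : ‖x‖ ≤ ‖x - v‖ + ‖v‖ := by
      have : x = (x - v) + v := by abel
      calc ‖x‖ = ‖(x - v) + v‖ := by rw [← this]
        _ ≤ _ := norm_add_le _ _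
    have h3 := le_abs_self RC
    rw [hR]
    linarith
  have hfv : f0 v = 1 - m := by
    rw [hv, map_smul, hf0e, smul_eq_mul, mul_one]
  have hf2 : ∀ x ∈ D, f0 x ≤ 1 := by
    intro x hx
    have h1 : f0 (x - v) ≤ m := le_csSup (hbdd C hCgood'.bd f0) ⟨_, hC'sub hx, rfl⟩
    rw [map_sub, hfv] at h1
    linarith
  have hf1 : ∀ x ∈ D, 1 - η ≤ f0 x := by
    intro x hx
    have h1 : m ≤ f0 (x - v) + η := by
      apply csSup_le (hCgood'.ne.image _)
      rintro _ ⟨c, hc, rfl⟩
      exact (hf _ hx c hc).le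
    rw [map_sub, hfv] at h1
    linarith
  have hDd : ∀ x ∈ D, ∀ y ∈ D, ‖x - y‖ ≤ d0 + ε' := by
    intro x hx y hy
    have h1 := Metric.dist_le_diam_of_mem hCgood'.bd (hC'sub hx) (hC'sub hy)
    rw [dist_eq_norm] at h1
    have h2 : x - v - (y - v) = x - y := by abel
    rw [h2] at h1
    linarith
  have hDpd : PD d0 D := by
    intro f a ha η hη
    obtain ⟨x, hx, y, hy, h1, h2, h3⟩ := hPD C' hC' f a ha η hη
    refine ⟨x + v, by simpa [hD] using hx, y + v, by simpa [hD] using hy, ?_, ?_, ?_⟩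
    · intro c hc
      have := h1 _ hc
      rw [map_sub] at this
      rw [map_add]
      linarith
    · intro c hc
      have := h2 _ hc
      rw [map_sub] at this
      rw [map_add]
      linarith
    · have : x + v - (y + v) = x - y := by abel
      rwa [this]
  -- the norm
  refine ⟨newNorm hDne hηpos, ?_, ?_⟩
  · refine ⟨(R + η)⁻¹, by positivity, η⁻¹, by positivity, fun x => ?_⟩
    rw [newNorm_apply]
    constructor
    · have hsub : body D η ⊆ Metric.closedBall (0 : X) (R + η) := by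
        rintro _ ⟨k, hk, u, hu, rfl⟩
        rw [mem_closedBall_zero_iff]
        have h1 := hull_bound hDR hk
        have h2 : ‖u‖ < η := by simpa using hu
        exact (norm_add_le _ _).trans (by linarith)
      have := le_gauge_of_subset_closedBall (body_absorbent hDne hηpos) (by positivity) hsub
        (x := x)
      rwa [inv_mul_eq_div]
    · have := mul_gauge_le_norm (ball_subset_body hDne η) (x := x)
      rw [inv_mul_eq_div, le_div_iff₀ hηpos, mul_comm]
      exact this
  · intro f α hα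
    obtain ⟨x, hx, y, hy, hxy, X1, hX1, Y1, hY1, hdiff, hXm, hYm⟩ :=
      slice_body hηpos hDpd f (half_pos hα) (η' := ε1 * d0 / 8) (by positivity)
    have hsup : ∀ z : X, (∀ k ∈ body D η, f k < f z + α / 2) →
        sSup (f '' {z : X | newNorm hDne hηpos z ≤ 1}) - α < f z := by
      intro z hz
      have h1 : sSup (f '' {z : X | newNorm hDne hηpos z ≤ 1}) ≤ f z + α / 2 := by
        apply csSup_le
        · exact ⟨f 0, 0, by simp, rfl⟩
        · rintro _ ⟨c, hc, rfl⟩
          have hc' : gauge (body D η) c ≤ 1 := hc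
          -- c is in the closure of the body
          have h2 : c ∈ closure (body D η) := by
            apply mem_closure_of_gauge_le_one (body_convex D η)
              (ball_subset_body hDne η (Metric.mem_ball_self hηpos)) (body_absorbent hDne hηpos)
              hc'
          have h3 : IsClosed {c | f c ≤ f z + α / 2} := isClosed_le f.continuous continuous_const
          exact closure_minimal (fun k hk => (hz k hk).le) h3 h2
      linarith
    refine ⟨X1, Y1, ?_, ?_, hsup X1 hXm, hsup Y1 hYm, ?_⟩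
    · rw [newNorm_apply]
      exact (gauge_lt_one_of_mem_of_isOpen (body_open D η) hX1).le
    · rw [newNorm_apply]
      exact (gauge_lt_one_of_mem_of_isOpen (body_open D η) hY1).le
    · have hNeq : newNorm hDne hηpos (X1 - Y1) = newNorm hDne hηpos (x - y) := by
        rcases hdiff with h | h
        · rw [h]
        · rw [h, map_neg_eq_map]
      rw [hNeq]
      by_contra hcon
      push Not at hcon
      set s := 2 - ε1 / 2 with hs
      have hs1 : 1 ≤ s := by rw [hs]; linarith
      have hs2 : s ≤ 2 := by rw [hs]; linarith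
      have hs0 : 0 < s := by linarith
      have hlt : newNorm hDne hηpos (x - y) < s := by rw [hs]; linarith
      have hmem : s⁻¹ • (x - y) ∈ body D η := by
        have h1 : gauge (body D η) (s⁻¹ • (x - y)) < 1 := by
          rw [gauge_smul_of_nonneg (inv_nonneg.mpr hs0.le), smul_eq_mul, inv_mul_lt_iff₀ hs0,
            mul_one]
          exact hlt
        have h2 := setOfPred_gauge_lt_one_eq_self_of_isOpen (body_convex D η)
          (ball_subset_body hDne η (Metric.mem_ball_self hηpos)) (body_open D η)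
        rw [← h2]
        exact h1
      have hb := diff_bound hDc hDne hDR hηpos f0 (le_refl F) hf1 hf2 hDd hx hy hs1 hmem
      have h5 : s * ((d0 + ε') / 2 + (2 + F) * η * R + η) ≤ d0 - ε1 * d0 / 8 := by
        have h6 : s * (d0 / 2) = d0 - ε1 * d0 / 4 := by rw [hs]; ring
        have h7 : s * (ε' / 2) ≤ ε1 * d0 / 16 := by
          have : s * (ε' / 2) ≤ 2 * (ε' / 2) := mul_le_mul_of_nonneg_right hs2 (by positivity)
          linarith
        have h8 : s * ((2 + F) * η * R + η) ≤ ε1 * d0 / 16 := by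
          have h9 : (2 + F) * η * R + η = ((2 + F) * R + 1) * η := by ring
          rw [h9]
          have h10 : s * (((2 + F) * R + 1) * η) ≤ 2 * (((2 + F) * R + 1) * η) :=
            mul_le_mul_of_nonneg_right hs2 (by positivity)
          linarith
        have h11 : s * ((d0 + ε') / 2 + (2 + F) * η * R + η) =
            s * (d0 / 2) + s * (ε' / 2) + s * ((2 + F) * η * R + η) := by ring
        rw [h11]
        linarith
      linarith

end Pool.Agent.MP2e175a
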