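import Pool.Agent.Lib.MP_2e175a_an.Loc

/-!
# Renorming with slices of diameter almost two (MP_2e175a_an)
-/

open Filter Topology Pointwise

namespace Pool.Agent.MP2e175a

universe u

variable {X : Type u} [NormedAddCommGroup X] [NormedSpace ℝ X]

/-- The body whose gauge is the new norm. -/
def body (D : Set X) (η : ℝ) : Set X := convexHull ℝ (D ∪ -D) + Metric.ball (0 : X) η

lemma body_convex (D : Set X) (η : ℝ) : Convex ℝ (body D η) :=
  (convex_convexHull ℝ _).add (convex_ball _ _)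

lemma body_open (D : Set X) (η : ℝ) : IsOpen (body D η) := Metric.isOpen_ball.add_left

lemma hull_neg (D : Set X) {x : X} (hx : x ∈ convexHull ℝ (D ∪ -D)) :
    -x ∈ convexHull ℝ (D ∪ -D) := by
  have h1 : -(D ∪ -D) = D ∪ -D := by
    rw [Set.union_neg, neg_neg, Set.union_comm]
  have h2 : -x ∈ -(convexHull ℝ (D ∪ -D)) := by simpa using hx
  rwa [← convexHull_neg, h1] at h2

lemma zero_mem_hull {D : Set X} (hD : D.Nonempty) : (0 : X) ∈ convexHull ℝ (D ∪ -D) := by
  obtain ⟨x, hx⟩ := hD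
  have h1 : x ∈ convexHull ℝ (D ∪ -D) := subset_convexHull ℝ _ (Or.inl hx)
  have h2 := hull_neg D h1
  have h3 := (convex_convexHull ℝ (D ∪ -D)) h1 h2 (by norm_num : (0 : ℝ) ≤ 1 / 2)
    (by norm_num : (0 : ℝ) ≤ 1 / 2) (by norm_num)
  simpa using h3

lemma ball_subset_body {D : Set X} (hD : D.Nonempty) (η : ℝ) :
    Metric.ball (0 : X) η ⊆ body D η := by
  intro x hx
  exact ⟨0, zero_mem_hull hD, x, hx, by simp⟩

lemma body_neg (D : Set X) (η : ℝ) {x : X} (hx : x ∈ body D η) : -x ∈ body D η := by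
  obtain ⟨k, hk, u, hu, rfl⟩ := hx
  refine ⟨-k, hull_neg D hk, -u, ?_, by simp only []; abel⟩
  rw [Metric.mem_ball, dist_zero_right] at hu ⊢
  rwa [norm_neg]

lemma body_absorbent {D : Set X} (hD : D.Nonempty) {η : ℝ} (hη : 0 < η) :
    Absorbent ℝ (body D η) :=
  (absorbent_ball_zero hη).mono (ball_subset_body hD η)

lemma body_balanced {D : Set X} (hD : D.Nonempty) {η : ℝ} (hη : 0 < η) :
    Balanced ℝ (body D η) := by
  intro a ha
  rintro _ ⟨x, hx, rfl⟩
  have h0 : (0 : X) ∈ body D η := ball_subset_body hD η (Metric.mem_ball_self hη)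
  rw [Real.norm_eq_abs] at ha
  rcases le_or_gt 0 a with h | h
  · have ha' : a ≤ 1 := by rwa [abs_of_nonneg h] at ha
    have := (body_convex D η) hx h0 h (by linarith : (0 : ℝ) ≤ 1 - a) (by ring)
    simpa using this
  · have ha' : -a ≤ 1 := by rwa [abs_of_neg h] at ha
    have := (body_convex D η) (body_neg D η hx) h0 (by linarith : (0 : ℝ) ≤ -a)
      (by linarith : (0 : ℝ) ≤ 1 - -a) (by ring)
    simpa using this

/-- The new norm. -/
noncomputable def newNorm {D : Set X} (hD : D.Nonempty) {η : ℝ} (hη : 0 < η) : Seminorm ℝ X :=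
  gaugeSeminorm (body_balanced hD hη) (body_convex D η) (body_absorbent hD hη)

lemma newNorm_apply {D : Set X} (hD : D.Nonempty) {η : ℝ} (hη : 0 < η) (x : X) :
    newNorm hD hη x = gauge (body D η) x := rfl

lemma hull_bound {D : Set X} {R : ℝ} (hR : ∀ x ∈ D, ‖x‖ ≤ R) {k : X}
    (hk : k ∈ convexHull ℝ (D ∪ -D)) : ‖k‖ ≤ R := by
  have h1 : convexHull ℝ (D ∪ -D) ⊆ Metric.closedBall (0 : X) R := by
    apply convexHull_min _ (convex_closedBall _ _)
    rintro x (hx | hx)
    · rw [mem_closedBall_zero_iff]; exact hR x hx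
    · rw [mem_closedBall_zero_iff, ← norm_neg]; exact hR _ hx
  have := h1 hk
  rwa [mem_closedBall_zero_iff] at this

/-- The key estimate. -/
lemma diff_bound {D : Set X} (hDc : Convex ℝ D) (hDne : D.Nonempty) {R η d F : ℝ}
    (hR : ∀ x ∈ D, ‖x‖ ≤ R) (hη : 0 < η)
    (f0 : X →L[ℝ] ℝ) (hF : ‖f0‖ ≤ F) (hf1 : ∀ x ∈ D, 1 - η ≤ f0 x) (hf2 : ∀ x ∈ D, f0 x ≤ 1)
    (hd : ∀ x ∈ D, ∀ y ∈ D, ‖x - y‖ ≤ d) {x y : X} (hx : x ∈ D) (hy : y ∈ D) {s : ℝ}
    (hs : 1 ≤ s) (hxy : s⁻¹ • (x - y) ∈ body D η) :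
    ‖x - y‖ ≤ s * (d / 2 + (2 + F) * η * R + η) := by
  obtain ⟨k, hk, u, hu, hku⟩ := hxy
  have hs0 : 0 < s := lt_of_lt_of_le one_pos hs
  have hun : ‖u‖ < η := by simpa using hu
  have hne2 : (-D).Nonempty := hDne.neg
  rw [convexHull_union hDne hne2, hDc.convexHull_eq, hDc.neg.convexHull_eq,
    mem_convexJoin] at hk
  obtain ⟨a, ha, b', hb', p, q, hp, hq, hpq, rfl⟩ := hk
  obtain ⟨b, hb, rfl⟩ : ∃ b ∈ D, b' = -b := ⟨-b', hb', by simp⟩
  have hxy' : x - y = s • (p • a + q • (-b) + u) := by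
    rw [show p • a + q • (-b) + u = s⁻¹ • (x - y) from hku, smul_smul, mul_inv_cancel₀ hs0.ne',
      one_smul]
  have hf0 : f0 x - f0 y = s * (p * f0 a - q * f0 b + f0 u) := by
    have := congrArg f0 hxy'
    simp only [map_sub, map_smul, map_add, map_neg, smul_eq_mul] at this
    rw [this]
    ring
  have hfu : |f0 u| ≤ F * η := by
    have h1 : |f0 u| ≤ ‖f0‖ * ‖u‖ := f0.le_opNorm u
    exact h1.trans (mul_le_mul hF hun.le (norm_nonneg _) ((norm_nonneg _).trans hF))
  have hx1 := hf1 x hx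
  have hx2 := hf2 x hx
  have hy1 := hf1 y hy
  have hy2 := hf2 y hy
  have ha1 := hf1 a ha
  have ha2 := hf2 a ha
  have hb1 := hf1 b hb
  have hb2 := hf2 b hb
  have hR0 : 0 ≤ R := (norm_nonneg _).trans (hR x hx)
  -- bound on p - q
  set T := p * f0 a - q * f0 b + f0 u with hT
  have hTb : |T| ≤ η := by
    have h1 : |s * T| ≤ η := by
      rw [← hf0, abs_le]
      constructor <;> linarith
    rw [abs_mul, abs_of_pos hs0] at h1
    have h2 : |T| ≤ s * |T| := by nlinarith [abs_nonneg T]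
    linarith
  have hpq' : |p - q| ≤ (2 + F) * η := by
    rw [abs_le] at hTb hfu ⊢
    constructor <;> nlinarith
  have e1 : p • a + q • (-b) + u = (1 / 2 : ℝ) • (a - b) + ((p - q) / 2) • (a + b) + u := by
    have hp' : p = 1 / 2 + (p - q) / 2 := by linarith
    have hq' : q = 1 / 2 - (p - q) / 2 := by linarith
    have e2 : p • a + q • (-b) = (1 / 2 : ℝ) • (a - b) + ((p - q) / 2) • (a + b) := by
      calc p • a + q • (-b) = (1 / 2 + (p - q) / 2) • a + (1 / 2 - (p - q) / 2) • (-b) := by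
            rw [← hp', ← hq']
        _ = _ := by
            simp only [add_smul, sub_smul, smul_neg, smul_sub, smul_add]
            abel
    rw [e2]
  have e3 : ‖(1 / 2 : ℝ) • (a - b)‖ ≤ d / 2 := by
    rw [norm_smul, Real.norm_of_nonneg (by norm_num)]
    have := hd a ha b hb
    linarith
  have e4 : ‖((p - q) / 2) • (a + b)‖ ≤ (2 + F) * η * R := by
    rw [norm_smul, Real.norm_eq_abs, abs_div, abs_of_pos (by norm_num : (0 : ℝ) < 2)]
    have h1 : ‖a + b‖ ≤ 2 * R := by
      refine (norm_add_le _ _).trans ?_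
      linarith [hR a ha, hR b hb]
    calc |p - q| / 2 * ‖a + b‖ ≤ ((2 + F) * η) / 2 * (2 * R) := by
          apply mul_le_mul (by linarith) h1 (norm_nonneg _)
          have := abs_nonneg (p - q)
          linarith
      _ = _ := by ring
  rw [hxy', norm_smul, Real.norm_of_nonneg hs0.le, e1]
  apply mul_le_mul_of_nonneg_left _ hs0.le
  calc ‖(1 / 2 : ℝ) • (a - b) + ((p - q) / 2) • (a + b) + u‖
      ≤ ‖(1 / 2 : ℝ) • (a - b)‖ + ‖((p - q) / 2) • (a + b)‖ + ‖u‖ :=
        (norm_add_le _ _).trans (add_le_add (norm_add_le _ _) le_rfl)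
    _ ≤ _ := by linarith

/-- Slices of the new unit ball contain translated slices of `D`. -/
lemma slice_body {D : Set X} {η : ℝ} (hη : 0 < η)
    {d0 : ℝ} (hpd : PD d0 D) (f : X →L[ℝ] ℝ) {α η' : ℝ} (hα : 0 < α) (hη' : 0 < η') :
    ∃ x ∈ D, ∃ y ∈ D, d0 - η' < ‖x - y‖ ∧ ∃ X1 ∈ body D η, ∃ Y1 ∈ body D η,
      (X1 - Y1 = x - y ∨ X1 - Y1 = -(x - y)) ∧ (∀ k ∈ body D η, f k < f X1 + α) ∧
      (∀ k ∈ body D η, f k < f Y1 + α) := by
  obtain ⟨x, hx, y, hy, hxm, hym, hxy⟩ := hpd f (α / 8) (by positivity) η' hη'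
  obtain ⟨x', hx', y', hy', hx'm, hy'm, hxy'⟩ := hpd (-f) (α / 8) (by positivity) η' hη'
  -- nearly maximising point of the ball
  obtain ⟨u, hu, hum⟩ : ∃ u ∈ Metric.ball (0 : X) η, ∀ c ∈ Metric.ball (0 : X) η,
      f c < f u + α / 8 := by
    have hne : (f '' Metric.ball (0 : X) η).Nonempty := ⟨f 0, 0, Metric.mem_ball_self hη, rfl⟩
    have hbd : BddAbove (f '' Metric.ball (0 : X) η) := by
      refine ⟨‖f‖ * η, ?_⟩
      rintro _ ⟨c, hc, rfl⟩
      have hcn : ‖c‖ < η := by simpa using hc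
      have h1 : |f c| ≤ ‖f‖ * η := (f.le_opNorm c).trans
        (mul_le_mul_of_nonneg_left hcn.le (norm_nonneg _))
      exact (le_abs_self _).trans h1
    obtain ⟨_, ⟨u, hu, rfl⟩, hu'⟩ := exists_lt_of_lt_csSup hne
      (sub_lt_self (sSup (f '' Metric.ball (0 : X) η)) (by positivity : (0 : ℝ) < α / 8))
    refine ⟨u, hu, fun c hc => ?_⟩
    have := le_csSup hbd ⟨c, hc, rfl⟩
    linarith
  have hull : ∀ b : ℝ, (∀ c ∈ D, f c ≤ b) → (∀ c ∈ D, -(f c) ≤ b) →
      ∀ k ∈ convexHull ℝ (D ∪ -D), f k ≤ b := by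
    intro b h1 h2 k hk
    have h3 : convexHull ℝ (D ∪ -D) ⊆ {c | f c ≤ b} := by
      apply convexHull_min _ (convex_halfSpace_le f.toLinearMap.isLinear b)
      rintro c (hc | hc)
      · exact h1 c hc
      · have := h2 (-c) hc
        rw [map_neg, neg_neg] at this
        exact this
    exact h3 hk
  have hbody : ∀ z : X, (∀ k ∈ convexHull ℝ (D ∪ -D), f k ≤ f z + α / 2) →
      ∀ k ∈ body D η, f k < f (z + u) + α := by
    intro z hz k hk
    obtain ⟨k1, hk1, u1, hu1, rfl⟩ := hk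
    have h1 := hz k1 hk1
    have h2 := hum u1 hu1
    simp only [map_add]
    linarith
  rcases le_total (f (-x')) (f x) with hcase | hcase
  · refine ⟨x, hx, y, hy, hxy, x + u, ⟨x, subset_convexHull ℝ _ (Or.inl hx), u, hu, rfl⟩, y + u,
      ⟨y, subset_convexHull ℝ _ (Or.inl hy), u, hu, rfl⟩, Or.inl (by abel), ?_, ?_⟩
    · apply hbody
      apply hull
      · intro c hc; have := hxm c hc; linarith
      · intro c hc
        have := hx'm c hc
        simp only [neg_apply] at this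
        rw [map_neg] at hcase
        linarith
    · apply hbody
      have h3 := hym x hx
      apply hull
      · intro c hc; have := hym c hc; linarith
      · intro c hc
        have := hx'm c hc
        simp only [neg_apply] at this
        rw [map_neg] at hcase
        linarith
  · refine ⟨x', hx', y', hy', hxy', -x' + u, ⟨-x', subset_convexHull ℝ _ (Or.inr (by simpa using hx')),
      u, hu, rfl⟩, -y' + u, ⟨-y', subset_convexHull ℝ _ (Or.inr (by simpa using hy')), u, hu, rfl⟩,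
      Or.inr (by abel), ?_, ?_⟩
    · apply hbody
      rw [map_neg] at hcase
      apply hull
      · intro c hc; have := hxm c hc; rw [map_neg]; linarith
      · intro c hc
        have := hx'm c hc
        simp only [neg_apply] at this
        rw [map_neg]
        linarith
    · apply hbody
      have h3 := hy'm x' hx'
      simp only [neg_apply] at h3
      rw [map_neg] at hcase
      apply hull
      · intro c hc; have := hxm c hc; rw [map_neg]; linarith
      · intro c hc
        have := hy'm c hc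
        simp only [neg_apply] at this
        rw [map_neg]
        linarith

end Pool.Agent.MP2e175a
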